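import Mathlib

-- part Pool.Agent.P.MP_416653_co.Avg
section

set_option autoImplicit false

namespace Pool.Agent.P.MP_416653_co

open Finset

set_option linter.unusedSectionVars false

/-- average of a real function on a finite type -/
noncomputable def av {A : Type} [Fintype A] (f : A → ℝ) : ℝ := (∑ a, f a) / (Fintype.card A : ℝ)

section
variable {A B : Type} [Fintype A] [Fintype B]

theorem av_mono {f g : A → ℝ} (h : ∀ a, f a ≤ g a) : av f ≤ av g := by
  unfold av
  gcongr with a
  exact h a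

theorem av_add (f g : A → ℝ) : av (fun a => f a + g a) = av f + av g := by
  unfold av
  rw [Finset.sum_add_distrib, add_div]

theorem av_mul (c : ℝ) (f : A → ℝ) : av (fun a => c * f a) = c * av f := by
  unfold av
  rw [← Finset.mul_sum, mul_div_assoc]

theorem av_const [Nonempty A] (c : ℝ) : av (fun _ : A => c) = c := by
  unfold av
  have : (Fintype.card A : ℝ) ≠ 0 := by exact_mod_cast Fintype.card_ne_zero
  simp

theorem av_sum {ι : Type} (s : Finset ι) (f : ι → A → ℝ) :
    av (fun a => ∑ i ∈ s, f i a) = ∑ i ∈ s, av (f i) := by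
  unfold av
  rw [Finset.sum_comm, Finset.sum_div]

theorem exists_le_av [Nonempty A] (f : A → ℝ) : ∃ a, f a ≤ av f := by
  by_contra h
  push Not at h
  have h1 : ∑ _a : A, av f < ∑ a, f a :=
    Finset.sum_lt_sum_of_nonempty Finset.univ_nonempty (fun a _ => h a)
  have : (Fintype.card A : ℝ) ≠ 0 := by exact_mod_cast Fintype.card_ne_zero
  have h2 : ∑ _a : A, av f = ∑ a, f a := by
    unfold av
    simp
    field_simp
  linarith

theorem av_comp_surj [AddCommGroup A] [AddCommGroup B] (φ : A →+ B)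
    (hφ : Function.Surjective φ) (f : B → ℝ) : av (fun a => f (φ a)) = av f := by
  classical
  have hfib : ∀ b : B, (univ.filter (fun a => φ a = b)).card =
      (univ.filter (fun a => φ a = 0)).card := by
    intro b
    exact AddMonoidHom.card_fiber_eq_of_mem_range φ (hφ b) (hφ 0)
  set m := (univ.filter (fun a => φ a = 0)).card with hm
  have h1 : ∀ g : B → ℝ, ∑ a, g (φ a) = m * ∑ b, g b := by
    intro g
    rw [← Finset.sum_fiberwise (s := univ) (g := φ), Finset.mul_sum]
    refine Finset.sum_congr rfl fun b _ => ?_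
    rw [Finset.sum_congr rfl (g := fun _ => g b)]
    · simp [hfib b]
    · intro a ha
      rw [(Finset.mem_filter.1 ha).2]
  have h2 := h1 (fun _ => 1)
  simp only [sum_const, card_univ, nsmul_eq_mul, mul_one] at h2
  have hm0 : (m : ℝ) ≠ 0 := by
    have : (Fintype.card A : ℝ) ≠ 0 := by exact_mod_cast Fintype.card_ne_zero
    intro h0
    rw [h0, zero_mul] at h2
    exact this h2
  unfold av
  rw [h1, h2, mul_div_mul_left _ _ hm0]

end

/-- Cauchy-Schwarz over the fibres of a map -/
theorem sq_sum_le_fib {ι K : Type} [Fintype K] [DecidableEq K] (s : Finset ι) (g : ι → K)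
    (u : ι → ℝ) :
    (∑ i ∈ s, u i) ^ 2 ≤
      (Fintype.card K : ℝ) * ∑ i ∈ s, ∑ j ∈ s, u i * u j * (if g i = g j then 1 else 0) := by
  have h1 : ∑ i ∈ s, u i = ∑ k : K, ∑ i ∈ s, (if g i = k then u i else 0) := by
    rw [Finset.sum_comm]
    simp
  have h2 : ∑ i ∈ s, ∑ j ∈ s, u i * u j * (if g i = g j then 1 else 0) =
      ∑ k : K, (∑ i ∈ s, (if g i = k then u i else 0)) ^ 2 := by
    simp only [sq, Finset.sum_mul_sum]
    rw [Finset.sum_comm (s := univ)]
    refine Finset.sum_congr rfl fun i _ => ?_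
    rw [Finset.sum_comm (s := univ)]
    refine Finset.sum_congr rfl fun j _ => ?_
    rw [Finset.sum_eq_single (g i)]
    · by_cases h : g i = g j
      · simp [h]
      · simp [h, Ne.symm h]
    · intro k _ hk
      simp [Ne.symm hk]
    · simp
  rw [h1, h2]
  have := sq_sum_le_card_mul_sum_sq (s := (univ : Finset K))
    (f := fun k => ∑ i ∈ s, (if g i = k then u i else 0))
  simpa using this

end Pool.Agent.P.MP_416653_co
end

-- part Pool.Agent.P.MP_416653_co.Quadric
section

set_option autoImplicit false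

namespace Pool.Agent.P.MP_416653_co

open Finset Matrix

set_option linter.unusedSectionVars false

variable {F : Type} [Field F] [Fintype F] [DecidableEq F]

/-- points of the affine part of an elliptic quadric -/
def qp (d : F) (z : F × F) : Fin 3 → F := ![z.1, z.2, z.1 ^ 2 - d * z.2 ^ 2]

theorem qp_inj (d : F) : Function.Injective (qp d) := by
  intro z z' h
  have h0 := congrFun h 0
  have h1 := congrFun h 1
  simp [qp] at h0 h1
  exact Prod.ext h0 h1

theorem aniso {d : F} (hd : ¬ IsSquare d) {x y : F} (h : x ^ 2 - d * y ^ 2 = 0) :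
    x = 0 ∧ y = 0 := by
  by_cases hy : y = 0
  · subst hy
    simp at h
    exact ⟨h, rfl⟩
  · exfalso
    apply hd
    refine ⟨x / y, ?_⟩
    field_simp
    linear_combination -h

/-- plane sections have at most q + 2 points -/
theorem plane_count {d : F} (hd : ¬ IsSquare d) (a : F) (w : Fin 3 → F) (hw : (a, w) ≠ 0) :
    (univ.filter (fun z : F × F => a + w ⬝ᵥ qp d z = 0)).card ≤ Fintype.card F + 2 := by
  have hdot : ∀ z : F × F, w ⬝ᵥ qp d z = w 0 * z.1 + w 1 * z.2 + w 2 * (z.1 ^ 2 - d * z.2 ^ 2) := by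
    intro z
    simp [dotProduct, Fin.sum_univ_three, qp]
  set S := univ.filter (fun z : F × F => a + w ⬝ᵥ qp d z = 0) with hS
  have hmem : ∀ z : F × F, z ∈ S ↔
      a + (w 0 * z.1 + w 1 * z.2 + w 2 * (z.1 ^ 2 - d * z.2 ^ 2)) = 0 := by
    intro z
    simp [hS, hdot]
  by_cases h2 : w 2 = 0
  · by_cases h1 : w 1 = 0
    · by_cases h0 : w 0 = 0
      · have ha : a ≠ 0 := by
          intro ha
          apply hw
          ext i
          · exact ha
          · fin_cases i <;> simp [h0, h1, h2]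
        have : S = ∅ := by
          ext z
          simp [hmem, h0, h1, h2, ha]
        simp [this]
      · have : S.card ≤ (univ : Finset F).card := by
          refine Finset.card_le_card_of_injOn (fun z => z.2) (fun _ _ => Finset.mem_coe.2 (mem_univ _)) ?_
          intro z hz z' hz' h
          have e1 := (hmem z).1 hz
          have e2 := (hmem z').1 hz'
          simp only at h
          rw [h1, h2] at e1 e2
          refine Prod.ext ?_ h
          have : w 0 * (z.1 - z'.1) = 0 := by linear_combination e1 - e2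
          rcases mul_eq_zero.1 this with h3 | h3
          · exact absurd h3 h0
          · exact sub_eq_zero.1 h3
        simp only [card_univ] at this
        omega
    · have : S.card ≤ (univ : Finset F).card := by
        refine Finset.card_le_card_of_injOn (fun z => z.1) (fun _ _ => Finset.mem_coe.2 (mem_univ _)) ?_
        intro z hz z' hz' h
        have e1 := (hmem z).1 hz
        have e2 := (hmem z').1 hz'
        simp only at h
        rw [h2] at e1 e2
        refine Prod.ext h ?_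
        have : w 1 * (z.2 - z'.2) = 0 := by
          rw [h] at e1
          linear_combination e1 - e2
        rcases mul_eq_zero.1 this with h3 | h3
        · exact absurd h3 h1
        · exact sub_eq_zero.1 h3
      simp only [card_univ] at this
      omega
  · rcases S.eq_empty_or_nonempty with hE | ⟨z0, hz0⟩
    · simp [hE]
    · have e0 := (hmem z0).1 hz0
      have key : (S.erase z0).card ≤ (univ : Finset (Option F)).card := by
        refine Finset.card_le_card_of_injOn
          (fun z => if z.1 = z0.1 then none else some ((z.2 - z0.2) / (z.1 - z0.1)))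
          (fun _ _ => Finset.mem_coe.2 (mem_univ _)) ?_
        intro z hz z' hz' h
        have hz1 := Finset.mem_erase.1 (Finset.mem_coe.1 hz)
        have hz1' := Finset.mem_erase.1 (Finset.mem_coe.1 hz')
        have e1 := (hmem z).1 hz1.2
        have e2 := (hmem z').1 hz1'.2
        simp only at h
        -- find mu with z' - z0 = mu (z - z0)
        have hne : ¬ (z.1 - z0.1 = 0 ∧ z.2 - z0.2 = 0) := by
          rintro ⟨a1, a2⟩
          exact hz1.1 (Prod.ext (sub_eq_zero.1 a1) (sub_eq_zero.1 a2))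
        have hne' : ¬ (z'.1 - z0.1 = 0 ∧ z'.2 - z0.2 = 0) := by
          rintro ⟨a1, a2⟩
          exact hz1'.1 (Prod.ext (sub_eq_zero.1 a1) (sub_eq_zero.1 a2))
        have hmu : ∃ mu : F, z'.1 - z0.1 = mu * (z.1 - z0.1) ∧ z'.2 - z0.2 = mu * (z.2 - z0.2) := by
          by_cases c1 : z.1 = z0.1
          · by_cases c2 : z'.1 = z0.1
            · have c3 : z.2 - z0.2 ≠ 0 := fun c => hne ⟨sub_eq_zero.2 c1, c⟩
              refine ⟨(z'.2 - z0.2) / (z.2 - z0.2), ?_, ?_⟩
              · rw [c1, c2]; simp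
              · field_simp
            · simp [c1, c2] at h
          · by_cases c2 : z'.1 = z0.1
            · simp [c1, c2] at h
            · simp only [c1, c2, if_false, Option.some.injEq] at h
              have c3 : z.1 - z0.1 ≠ 0 := sub_ne_zero.2 c1
              have c4 : z'.1 - z0.1 ≠ 0 := sub_ne_zero.2 c2
              refine ⟨(z'.1 - z0.1) / (z.1 - z0.1), ?_, ?_⟩
              · field_simp
              · rw [div_eq_div_iff c3 c4] at h
                field_simp
                linear_combination -h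
        obtain ⟨mu, m1, m2⟩ := hmu
        set v1 := z.1 - z0.1 with hv1
        set v2 := z.2 - z0.2 with hv2
        have hz1e : z.1 = z0.1 + v1 := by rw [hv1]; ring
        have hz2e : z.2 = z0.2 + v2 := by rw [hv2]; ring
        have hz1e' : z'.1 = z0.1 + mu * v1 := by rw [← m1]; ring
        have hz2e' : z'.2 = z0.2 + mu * v2 := by rw [← m2]; ring
        have hf : v1 ^ 2 - d * v2 ^ 2 ≠ 0 := fun c => hne (aniso hd c)
        have hmu0 : mu ≠ 0 := by
          intro c
          apply hne'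
          rw [m1, m2, c]
          simp
        rw [hz1e, hz2e] at e1
        rw [hz1e', hz2e'] at e2
        have : mu * (mu - 1) * (w 2 * (v1 ^ 2 - d * v2 ^ 2)) = 0 := by
          linear_combination e2 - mu * e1 - (1 - mu) * e0
        have hmu1 : mu = 1 := by
          rcases mul_eq_zero.1 this with h3 | h3
          · rcases mul_eq_zero.1 h3 with h4 | h4
            · exact absurd h4 hmu0
            · exact sub_eq_zero.1 h4
          · exact absurd h3 (mul_ne_zero h2 hf)
        refine Prod.ext ?_ ?_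
        · rw [hz1e, hz1e', hmu1, one_mul]
        · rw [hz2e, hz2e', hmu1, one_mul]
      rw [Finset.card_erase_of_mem hz0] at key
      simp only [card_univ, Fintype.card_option] at key
      omega

end Pool.Agent.P.MP_416653_co
end

-- part Pool.Agent.P.MP_416653_co.Base
section

set_option autoImplicit false

namespace Pool.Agent.P.MP_416653_co

open Finset Matrix

set_option linter.unusedSectionVars false

variable {F : Type} [Field F] [Fintype F] [DecidableEq F]

abbrev EE (F : Type) := F × (Fin 3 → F)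

def proj (d : F) (z : F × F) (v : EE F) : Fin 3 → F := v.2 - v.1 • qp d z

def TT (d : F) (v : EE F) : Prop := ∃ z, proj d z v = 0

instance (d : F) : DecidablePred (TT d) := fun v => by unfold TT; infer_instance

noncomputable def Y1 (d : F) (v : EE F) : ℝ :=
  1 / (Fintype.card F : ℝ) - (if TT d v then 1 else 0) +
    (2 * (Fintype.card F : ℝ) + 1) * (if v = 0 then 1 else 0)

def pr (w v : EE F) : F := w.1 * v.1 + w.2 ⬝ᵥ v.2

theorem proj_sub (d : F) (z : F × F) (x y : EE F) :
    proj d z (x - y) = proj d z x - proj d z y := by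
  simp only [proj, Prod.fst_sub, Prod.snd_sub, sub_smul]
  abel

theorem TT_zero (d : F) : TT d 0 := ⟨0, by simp [proj]⟩

theorem TT_symm (d : F) {x y : EE F} (h : TT d (x - y)) : TT d (y - x) := by
  obtain ⟨z, hz⟩ := h
  refine ⟨z, ?_⟩
  rw [proj_sub] at hz ⊢
  rw [sub_eq_zero] at hz ⊢
  exact hz.symm

theorem pr_sub (w x y : EE F) : pr w (x - y) = pr w x - pr w y := by
  simp only [pr, Prod.fst_sub, Prod.snd_sub, dotProduct_sub]
  ring

theorem card_EE : (Fintype.card (EE F) : ℝ) = (Fintype.card F : ℝ) ^ 4 := by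
  simp [EE]
  ring

theorem NN_eq (d : F) (v : EE F) :
    ∑ z : F × F, (if proj d z v = 0 then (1 : ℝ) else 0) =
      (if TT d v then 1 else 0) + ((Fintype.card F : ℝ) ^ 2 - 1) * (if v = 0 then 1 else 0) := by
  by_cases hv : v = 0
  · subst hv
    simp [TT_zero, proj, sq]
  · by_cases hT : TT d v
    · obtain ⟨z0, hz0⟩ := hT
      have hT : TT d v := ⟨z0, hz0⟩
      rw [Finset.sum_eq_single z0]
      · simp [hz0, hT, hv]
      · intro z _ hz
        rw [if_neg]
        intro h
        apply hz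
        have h1 : v.1 ≠ 0 := by
          intro h1
          apply hv
          simp only [proj, h1, zero_smul, sub_zero] at h
          exact Prod.ext h1 h
        apply qp_inj d
        have : v.1 • qp d z = v.1 • qp d z0 := by
          simp only [proj, sub_eq_zero] at h hz0
          rw [← h, ← hz0]
        exact smul_right_injective _ h1 this
      · simp
    · have : ∀ z, ¬ proj d z v = 0 := fun z h => hT ⟨z, h⟩
      simp [this, hT, hv]

theorem sum_ker_zero {A : Type} [Fintype A] [AddCommGroup A] (φ : A →+ F)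
    (hφ : Function.Surjective φ) :
    ∑ a, ((Fintype.card F : ℝ) * (if φ a = 0 then 1 else 0) - 1) = 0 := by
  have h := av_comp_surj φ hφ (fun b => (Fintype.card F : ℝ) * (if b = 0 then 1 else 0) - 1)
  have h2 : av (fun b : F => (Fintype.card F : ℝ) * (if b = 0 then 1 else 0) - 1) = 0 := by
    unfold av
    simp [Finset.sum_sub_distrib]
  rw [h2] at h
  unfold av at h
  have : (Fintype.card A : ℝ) ≠ 0 := by exact_mod_cast Fintype.card_ne_zero
  rcases div_eq_zero_iff.1 h with h | h
  · exact h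
  · exact absurd h this

theorem sum_a3 (y : Fin 3 → F) :
    ∑ w : Fin 3 → F, ((Fintype.card F : ℝ) * (if w ⬝ᵥ y = 0 then 1 else 0) - 1) =
      (if y = 0 then 1 else 0) * (((Fintype.card F : ℝ) - 1) * (Fintype.card F : ℝ) ^ 3) := by
  by_cases hy : y = 0
  · subst hy
    simp
    ring
  · rw [if_neg hy, zero_mul]
    obtain ⟨j, hj⟩ : ∃ j, y j ≠ 0 := by
      by_contra h
      push Not at h
      exact hy (funext h)
    let φ : (Fin 3 → F) →+ F := AddMonoidHom.mk' (fun w => w ⬝ᵥ y) (fun a b => add_dotProduct a b y)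
    refine sum_ker_zero φ ?_
    intro b
    refine ⟨Pi.single j (b / y j), ?_⟩
    simp [φ]
    field_simp

theorem sum_a4 (v : EE F) :
    ∑ w : EE F, ((Fintype.card F : ℝ) * (if pr w v = 0 then 1 else 0) - 1) =
      (if v = 0 then 1 else 0) * (((Fintype.card F : ℝ) - 1) * (Fintype.card F : ℝ) ^ 4) := by
  by_cases hv : v = 0
  · subst hv
    simp [pr]
    ring
  · rw [if_neg hv, zero_mul]
    let φ : EE F →+ F := AddMonoidHom.mk' (fun w => pr w v) (fun a b => by
      simp only [pr, Prod.fst_add, Prod.snd_add, add_dotProduct]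
      ring)
    refine sum_ker_zero φ ?_
    intro b
    by_cases h1 : v.1 = 0
    · obtain ⟨j, hj⟩ : ∃ j, v.2 j ≠ 0 := by
        by_contra h
        push Not at h
        exact hv (Prod.ext h1 (funext h))
      refine ⟨(0, Pi.single j (b / v.2 j)), ?_⟩
      simp [φ, pr]
      field_simp
    · refine ⟨(b / v.1, 0), ?_⟩
      simp [φ, pr]
      field_simp

theorem sum_b (d : F) (z : F × F) (v : EE F) :
    ∑ w : EE F, (if w.1 + w.2 ⬝ᵥ qp d z = 0 then (1 : ℝ) else 0) *
      ((Fintype.card F : ℝ) * (if pr w v = 0 then 1 else 0) - 1) =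
      (if proj d z v = 0 then 1 else 0) *
        (((Fintype.card F : ℝ) - 1) * (Fintype.card F : ℝ) ^ 3) := by
  rw [← sum_a3, Fintype.sum_prod_type_right]
  refine Finset.sum_congr rfl fun w _ => ?_
  rw [Finset.sum_eq_single (-(w ⬝ᵥ qp d z))]
  · have : pr (-(w ⬝ᵥ qp d z), w) v = w ⬝ᵥ proj d z v := by
      simp only [pr, proj, dotProduct_sub, dotProduct_smul, smul_eq_mul]
      ring
    simp [this]
  · intro a _ ha
    rw [if_neg, zero_mul]
    intro h
    apply ha
    simp only at h
    linear_combination h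
  · simp

/-- the coefficients of the hyperplane kernels -/
noncomputable def cw (d : F) (w : EE F) : ℝ :=
  (Fintype.card F : ℝ) + 2 - ∑ z : F × F, (if w.1 + w.2 ⬝ᵥ qp d z = 0 then (1 : ℝ) else 0) +
    (Fintype.card F : ℝ) ^ 2 * (if w = 0 then 1 else 0)

theorem cw_nonneg {d : F} (hd : ¬ IsSquare d) (w : EE F) : 0 ≤ cw d w := by
  unfold cw
  by_cases hw : w = 0
  · subst hw
    simp [sq]
    positivity
  · have := plane_count hd w.1 w.2 hw
    have h2 : ((univ.filter (fun z : F × F => w.1 + w.2 ⬝ᵥ qp d z = 0)).card : ℝ) ≤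
        (Fintype.card F : ℝ) + 2 := by exact_mod_cast this
    simp only [hw, if_false, mul_zero, add_zero, Finset.sum_boole]
    linarith

theorem two_le_q : (2 : ℝ) ≤ (Fintype.card F : ℝ) := by
  exact_mod_cast Fintype.one_lt_card (α := F)

theorem cw_identity (d : F) (v : EE F) :
    ∑ w : EE F, cw d w * ((Fintype.card F : ℝ) * (if pr w v = 0 then 1 else 0) - 1) =
      (((Fintype.card F : ℝ) - 1) * (Fintype.card F : ℝ) ^ 3) * Y1 d v := by
  have hq := two_le_q (F := F)
  set q := (Fintype.card F : ℝ) with hqdef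
  have e1 : ∀ w : EE F, cw d w * (q * (if pr w v = 0 then 1 else 0) - 1) =
      (q + 2) * (q * (if pr w v = 0 then 1 else 0) - 1) -
      ∑ z : F × F, (if w.1 + w.2 ⬝ᵥ qp d z = 0 then (1 : ℝ) else 0) *
        (q * (if pr w v = 0 then 1 else 0) - 1) +
      (if w = 0 then q ^ 2 * (q - 1) else 0) := by
    intro w
    unfold cw
    rw [← Finset.sum_mul]
    by_cases hw : w = 0
    · subst hw
      simp only [pr, Prod.fst_zero, Prod.snd_zero, zero_mul, zero_dotProduct, add_zero, if_true]
      ring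
    · simp only [hw, if_false]
      ring
  rw [Finset.sum_congr rfl (fun w _ => e1 w), Finset.sum_add_distrib, Finset.sum_sub_distrib,
    ← Finset.mul_sum, sum_a4, Finset.sum_comm]
  rw [Finset.sum_congr rfl (fun z _ => sum_b d z v), ← Finset.sum_mul, NN_eq]
  simp only [Finset.sum_ite_eq', Finset.mem_univ, if_true]
  unfold Y1
  rw [← hqdef]
  have : q ≠ 0 := by linarith
  field_simp
  ring

theorem Y1_psd {d : F} (hd : ¬ IsSquare d) {ι : Type} [Fintype ι] (x : ι → EE F) (u : ι → ℝ) :
    0 ≤ ∑ i, ∑ j, u i * u j * Y1 d (x i - x j) := by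
  have hq := two_le_q (F := F)
  set q := (Fintype.card F : ℝ) with hqdef
  have hκ : 0 < (q - 1) * q ^ 3 := by
    have : 0 < q - 1 := by linarith
    positivity
  have h1 : ((q - 1) * q ^ 3) * ∑ i, ∑ j, u i * u j * Y1 d (x i - x j) =
      ∑ w : EE F, cw d w * (q * (∑ i, ∑ j, u i * u j *
        (if pr w (x i) = pr w (x j) then 1 else 0)) - (∑ i, u i) ^ 2) := by
    have e : ∀ w : EE F, cw d w * (q * (∑ i, ∑ j, u i * u j *
        (if pr w (x i) = pr w (x j) then 1 else 0)) - (∑ i, u i) ^ 2) =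
        ∑ i, ∑ j, u i * u j * (cw d w *
          (q * (if pr w (x i - x j) = 0 then 1 else 0) - 1)) := by
      intro w
      rw [sq, Finset.sum_mul_sum, Finset.mul_sum, ← Finset.sum_sub_distrib, Finset.mul_sum]
      refine Finset.sum_congr rfl fun i _ => ?_
      rw [Finset.mul_sum, ← Finset.sum_sub_distrib, Finset.mul_sum]
      refine Finset.sum_congr rfl fun j _ => ?_
      simp only [pr_sub, sub_eq_zero]
      ring
    rw [Finset.sum_congr rfl (fun w _ => e w), Finset.sum_comm (s := (univ : Finset (EE F))),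
      Finset.mul_sum]
    refine Finset.sum_congr rfl fun i _ => ?_
    rw [Finset.mul_sum, Finset.sum_comm (s := (univ : Finset (EE F)))]
    refine Finset.sum_congr rfl fun j _ => ?_
    rw [← Finset.mul_sum, cw_identity]
    ring
  have h2 : 0 ≤ ∑ w : EE F, cw d w * (q * (∑ i, ∑ j, u i * u j *
        (if pr w (x i) = pr w (x j) then 1 else 0)) - (∑ i, u i) ^ 2) := by
    refine Finset.sum_nonneg fun w _ => mul_nonneg (cw_nonneg hd w) ?_
    have := sq_sum_le_fib (univ : Finset ι) (fun i => pr w (x i)) u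
    linarith
  rw [← h1] at h2
  exact (mul_nonneg_iff_of_pos_left hκ).1 h2

theorem TT_count (d : F) :
    ∑ v : EE F, (if TT d v then (1 : ℝ) else 0) ≤ (Fintype.card F : ℝ) ^ 3 := by
  rw [Finset.sum_boole]
  have : (univ.filter (fun v : EE F => TT d v)).card ≤ (univ : Finset (F × (F × F))).card := by
    refine Finset.card_le_card_of_surjOn (fun p => (p.1, p.1 • qp d p.2)) ?_
    intro v hv
    obtain ⟨z, hz⟩ := (Finset.mem_filter.1 (Finset.mem_coe.1 hv)).2
    refine ⟨(v.1, z), Finset.mem_coe.2 (mem_univ _), ?_⟩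
    simp only [proj, sub_eq_zero] at hz
    exact Prod.ext rfl hz.symm
  have h2 : ((univ.filter (fun v : EE F => TT d v)).card : ℝ) ≤
      ((univ : Finset (F × (F × F))).card : ℝ) := by exact_mod_cast this
  refine h2.trans (le_of_eq ?_)
  simp
  ring

theorem edge_lower (d : F) (W : Finset (EE F)) :
    (W.card : ℝ) ^ 2 ≤ (Fintype.card F : ℝ) *
      (∑ x ∈ W, ∑ y ∈ W, (if TT d (x - y) then (1 : ℝ) else 0) +
        (Fintype.card F : ℝ) ^ 2 * W.card) := by
  have hq := two_le_q (F := F)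
  set q := (Fintype.card F : ℝ) with hqdef
  have h1 : ∀ z : F × F, (W.card : ℝ) ^ 2 ≤
      q ^ 3 * ∑ x ∈ W, ∑ y ∈ W, (if proj d z (x - y) = 0 then (1 : ℝ) else 0) := by
    intro z
    have := sq_sum_le_fib W (fun x => proj d z x) (fun _ => (1 : ℝ))
    simp only [proj_sub, sub_eq_zero]
    simpa [hqdef] using this
  have h2 : q ^ 2 * (W.card : ℝ) ^ 2 ≤
      q ^ 3 * ∑ x ∈ W, ∑ y ∈ W, ∑ z : F × F, (if proj d z (x - y) = 0 then (1 : ℝ) else 0) := by
    have := Finset.sum_le_sum (s := (univ : Finset (F × F))) (fun z _ => h1 z)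
    rw [← Finset.mul_sum, Finset.sum_comm] at this
    simp only [sum_const, card_univ, Fintype.card_prod, nsmul_eq_mul, Nat.cast_mul] at this
    rw [Finset.sum_congr rfl (fun x _ => Finset.sum_comm)] at this
    rw [← hqdef, ← sq] at this
    exact this
  have h3 : ∑ x ∈ W, ∑ y ∈ W, ∑ z : F × F, (if proj d z (x - y) = 0 then (1 : ℝ) else 0) =
      ∑ x ∈ W, ∑ y ∈ W, (if TT d (x - y) then (1 : ℝ) else 0) + (q ^ 2 - 1) * W.card := by
    simp only [NN_eq, Finset.sum_add_distrib, ← Finset.mul_sum, sub_eq_zero]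
    congr 2
    rw [Finset.sum_congr rfl (g := fun _ => (1 : ℝ))]
    · simp
    · intro x hx
      simp [hx]
  rw [h3] at h2
  have hW : (0 : ℝ) ≤ W.card := by positivity
  have hq2 : 0 < q ^ 2 := by positivity
  have h4 : (W.card : ℝ) ^ 2 ≤ q * (∑ x ∈ W, ∑ y ∈ W, (if TT d (x - y) then (1 : ℝ) else 0) +
      (q ^ 2 - 1) * W.card) := by
    have : q ^ 2 * (W.card : ℝ) ^ 2 ≤ q ^ 2 * (q * (∑ x ∈ W, ∑ y ∈ W,
        (if TT d (x - y) then (1 : ℝ) else 0) + (q ^ 2 - 1) * W.card)) := by
      refine h2.trans (le_of_eq ?_)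
      ring
    exact le_of_mul_le_mul_left this hq2
  refine h4.trans ?_
  gcongr
  linarith

end Pool.Agent.P.MP_416653_co
end

-- part Pool.Agent.P.MP_416653_co.Count
section

set_option autoImplicit false

namespace Pool.Agent.P.MP_416653_co

open Finset Matrix

set_option linter.unusedSectionVars false

variable {F : Type} [Field F] [Fintype F] [DecidableEq F]

def Ind (d : F) {j : ℕ} (R : Finset (EE F)) (s : Fin j → EE F) : Prop :=
  (∀ i, s i ∈ R) ∧ ∀ i i', i ≠ i' → ¬ TT d (s i - s i')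

instance (d : F) {j : ℕ} (R : Finset (EE F)) : DecidablePred (Ind d (j := j) R) :=
  fun s => by unfold Ind; infer_instance

noncomputable def gg (d : F) (j : ℕ) (R : Finset (EE F)) : ℝ :=
  ∑ s : Fin j → EE F, if Ind d R s then 1 else 0

theorem gg_nonneg (d : F) (j : ℕ) (R : Finset (EE F)) : 0 ≤ gg d j R :=
  Finset.sum_nonneg fun s _ => by split_ifs <;> norm_num

theorem gg_zero (d : F) (R : Finset (EE F)) : gg d 0 R ≤ 1 := by
  unfold gg
  simp only [Finset.univ_unique, Finset.sum_singleton]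
  split_ifs <;> norm_num

theorem gg_succ (d : F) (j : ℕ) (R : Finset (EE F)) :
    gg d (j + 1) R ≤ ∑ x ∈ R, gg d j (R.filter (fun y => ¬ TT d (x - y))) := by
  unfold gg
  rw [← (Fin.consEquiv (fun _ : Fin (j + 1) => EE F)).sum_comp, Fintype.sum_prod_type]
  rw [← Finset.sum_filter_add_sum_filter_not univ (fun x => x ∈ R)]
  have h0 : ∑ x ∈ univ.filter (fun x => ¬ x ∈ R), ∑ s : Fin j → EE F,
      (if Ind d R ((Fin.consEquiv (fun _ : Fin (j + 1) => EE F)) (x, s)) then (1 : ℝ) else 0) = 0 := by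
    refine Finset.sum_eq_zero fun x hx => Finset.sum_eq_zero fun s _ => ?_
    rw [if_neg]
    intro h
    have := h.1 0
    simp at this hx
    exact hx this
  rw [h0, add_zero]
  have h1 : univ.filter (fun x => x ∈ R) = R := by ext; simp
  rw [h1]
  refine Finset.sum_le_sum fun x _ => Finset.sum_le_sum fun s _ => ?_
  by_cases h : Ind d R ((Fin.consEquiv (fun _ : Fin (j + 1) => EE F)) (x, s))
  · have h2 : Ind d (R.filter (fun y => ¬ TT d (x - y))) s := by
      refine ⟨fun i => ?_, fun i i' hii => ?_⟩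
      · have a1 := h.1 i.succ
        have a2 := h.2 0 i.succ (Fin.succ_ne_zero i).symm
        simp at a1 a2
        simp [a1, a2]
      · have a2 := h.2 i.succ i'.succ (fun e => hii (Fin.succ_injective _ e))
        simpa using a2
    simp [h, h2]
  · simp only [h, if_false]
    split_ifs <;> norm_num

theorem bad_le (d : F) (hq : (16 : ℝ) ≤ Fintype.card F) (R : Finset (EE F)) :
    ((R.filter (fun x => ((R.filter (fun y => TT d (x - y))).card : ℝ) <
      (Fintype.card F : ℝ) ^ 3 / 16)).card : ℝ) ≤ (Fintype.card F : ℝ) ^ 4 / 8 := by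
  set q := (Fintype.card F : ℝ) with hqdef
  set W := R.filter (fun x => ((R.filter (fun y => TT d (x - y))).card : ℝ) < q ^ 3 / 16) with hW
  have h1 := edge_lower d W
  rw [← hqdef] at h1
  have h2 : ∑ x ∈ W, ∑ y ∈ W, (if TT d (x - y) then (1 : ℝ) else 0) ≤ W.card * (q ^ 3 / 16) := by
    rw [← nsmul_eq_mul, ← Finset.sum_const]
    refine Finset.sum_le_sum fun x hx => ?_
    have hx2 := (Finset.mem_filter.1 hx).2
    rw [Finset.sum_boole]
    refine le_trans ?_ hx2.le
    have : (W.filter (fun y => TT d (x - y))).card ≤ (R.filter (fun y => TT d (x - y))).card :=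
      Finset.card_le_card (Finset.filter_subset_filter _ (Finset.filter_subset _ _))
    exact_mod_cast this
  have hW0 : (0 : ℝ) ≤ W.card := by positivity
  rcases hW0.eq_or_lt with h | h
  · rw [← h]; positivity
  · have h3 : (W.card : ℝ) * W.card ≤ W.card * (q * (q ^ 3 / 16 + q ^ 2)) := by
      have : q * (∑ x ∈ W, ∑ y ∈ W, (if TT d (x - y) then (1 : ℝ) else 0) + q ^ 2 * W.card) ≤
          q * (W.card * (q ^ 3 / 16) + q ^ 2 * W.card) := by gcongr
      nlinarith
    have h4 := le_of_mul_le_mul_left h3 h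
    have h5 : q ^ 3 * 16 ≤ q ^ 3 * q := by gcongr
    nlinarith

theorem gg_le (d : F) (hq : (16 : ℝ) ≤ Fintype.card F) (j : ℕ) :
    ∀ (m : ℕ) (R : Finset (EE F)), (R.card : ℝ) ≤ m * ((Fintype.card F : ℝ) ^ 3 / 16) →
      gg d j R ≤ 8 ^ m * ((Fintype.card F : ℝ) ^ 4 / 4) ^ j := by
  set q := (Fintype.card F : ℝ) with hqdef
  induction j with
  | zero =>
    intro m R _
    refine (gg_zero d R).trans ?_
    simp only [pow_zero, mul_one]
    exact one_le_pow₀ (by norm_num)
  | succ j ih =>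
    intro m R hR
    refine (gg_succ d j R).trans ?_
    rw [← Finset.sum_filter_add_sum_filter_not R
      (fun x => ((R.filter (fun y => TT d (x - y))).card : ℝ) < q ^ 3 / 16)]
    have hb := bad_le d hq R
    rw [← hqdef] at hb
    have hpos : (0 : ℝ) ≤ 8 ^ m * (q ^ 4 / 4) ^ j := by positivity
    have h1 : ∑ x ∈ R.filter (fun x => ((R.filter (fun y => TT d (x - y))).card : ℝ) < q ^ 3 / 16),
        gg d j (R.filter (fun y => ¬ TT d (x - y))) ≤ (q ^ 4 / 8) * (8 ^ m * (q ^ 4 / 4) ^ j) := by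
      refine le_trans (Finset.sum_le_card_nsmul _ _ (8 ^ m * (q ^ 4 / 4) ^ j) ?_) ?_
      · intro x _
        refine ih m _ (le_trans ?_ hR)
        exact_mod_cast Finset.card_le_card (Finset.filter_subset _ _)
      · rw [nsmul_eq_mul]
        gcongr
    have h2 : ∑ x ∈ R.filter (fun x => ¬ ((R.filter (fun y => TT d (x - y))).card : ℝ) < q ^ 3 / 16),
        gg d j (R.filter (fun y => ¬ TT d (x - y))) ≤ (q ^ 4) * (8 ^ m * (q ^ 4 / 4) ^ j / 8) := by
      refine le_trans (Finset.sum_le_card_nsmul _ _ (8 ^ m * (q ^ 4 / 4) ^ j / 8) ?_) ?_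
      · intro x hx
        have hx2 := not_lt.1 (Finset.mem_filter.1 hx).2
        have hsplit : ((R.filter (fun y => TT d (x - y))).card : ℝ) +
            ((R.filter (fun y => ¬ TT d (x - y))).card : ℝ) = R.card := by
          exact_mod_cast Finset.card_filter_add_card_filter_not (s := R) (fun y => TT d (x - y))
        have hq3 : 0 < q ^ 3 / 16 := by positivity
        have hnn : (0 : ℝ) ≤ ((R.filter (fun y => ¬ TT d (x - y))).card : ℝ) := by positivity
        cases m with
        | zero =>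
          exfalso
          simp only [Nat.cast_zero, zero_mul] at hR
          linarith
        | succ m =>
          have := ih m (R.filter (fun y => ¬ TT d (x - y))) (by
            push_cast at hR
            linarith)
          refine this.trans (le_of_eq ?_)
          rw [pow_succ]
          ring
      · rw [nsmul_eq_mul]
        gcongr
        rw [hqdef, ← card_EE]
        exact_mod_cast Finset.card_le_univ _
    refine (add_le_add h1 h2).trans (le_of_eq ?_)
    rw [pow_succ]
    ring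

/-- the proportion of independent sequences of length 48 q is at most 2 ^ (-48 q) -/
theorem av_ind_le (d : F) (hq : (16 : ℝ) ≤ Fintype.card F) :
    av (fun s : Fin (48 * Fintype.card F) → EE F => if Ind d univ s then (1 : ℝ) else 0) ≤
      (1 / 2) ^ (48 * Fintype.card F) := by
  have h := gg_le d hq (48 * Fintype.card F) (16 * Fintype.card F) univ (by
    rw [card_univ, card_EE]
    push_cast
    apply le_of_eq
    ring)
  unfold av
  unfold gg at h
  have hc : (Fintype.card (Fin (48 * Fintype.card F) → EE F) : ℝ) =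
      ((Fintype.card F : ℝ) ^ 4) ^ (48 * Fintype.card F) := by
    rw [Fintype.card_fun, Nat.cast_pow, card_EE, Fintype.card_fin]
  rw [hc, div_le_iff₀ (by positivity)]
  refine h.trans (le_of_eq ?_)
  have e8 : (8 : ℝ) ^ (16 * Fintype.card F) = 2 ^ (48 * Fintype.card F) := by
    rw [show (8 : ℝ) = 2 ^ 3 by norm_num, ← pow_mul]
    congr 1
    ring
  rw [e8, ← mul_pow, ← mul_pow]
  congr 1
  ring

end Pool.Agent.P.MP_416653_co
end

-- part Pool.Agent.P.MP_416653_co.Random
section

set_option autoImplicit false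

namespace Pool.Agent.P.MP_416653_co

open Finset Matrix

set_option linter.unusedSectionVars false

variable {F : Type} [Field F] [Fintype F] [DecidableEq F]

def HH (d : F) {c : ℕ} (v : Fin c → EE F) : Prop := ∃ l, TT d (v l)

instance (d : F) {c : ℕ} : DecidablePred (HH d (c := c)) :=
  fun s => by unfold HH; infer_instance

noncomputable def YY (d : F) {c : ℕ} (v : Fin c → EE F) : ℝ := ∑ l, Y1 d (v l)

noncomputable def ph (d : F) {c : ℕ} (v : Fin c → EE F) : ℝ :=
  (if HH d v then 1 else 0) + YY d v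

theorem ph_sq_le (d : F) {c : ℕ} (v : Fin c → EE F) :
    ph d v ^ 2 ≤ 3 * (((c : ℝ) / Fintype.card F) ^ 2 +
      ∑ l, ∑ l' ∈ univ.erase l,
        (if TT d (v l) then (1 : ℝ) else 0) * (if TT d (v l') then (1 : ℝ) else 0) +
      (2 * (Fintype.card F : ℝ) + 1) ^ 2 * c * ∑ l, (if v l = 0 then (1 : ℝ) else 0)) := by
  set q := (Fintype.card F : ℝ) with hqdef
  set X := ∑ l, (if TT d (v l) then (1 : ℝ) else 0) with hX
  set Z := ∑ l, (if v l = 0 then (1 : ℝ) else 0) with hZ
  have e1 : ph d v = c / q - (X - (if HH d v then 1 else 0)) + (2 * q + 1) * Z := by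
    unfold ph YY Y1
    rw [Finset.sum_add_distrib, Finset.sum_sub_distrib, ← Finset.mul_sum]
    simp only [sum_const, card_univ, Fintype.card_fin, nsmul_eq_mul]
    rw [← hqdef, ← hX, ← hZ]
    ring
  have e2 : ∑ l, ∑ l' ∈ univ.erase l,
        (if TT d (v l) then (1 : ℝ) else 0) * (if TT d (v l') then (1 : ℝ) else 0) = X ^ 2 - X := by
    rw [sq, hX, Finset.sum_mul_sum, ← Finset.sum_sub_distrib]
    refine Finset.sum_congr rfl fun l _ => ?_
    rw [← Finset.add_sum_erase _ _ (Finset.mem_univ l)]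
    split_ifs <;> simp
  have e3 : (X - (if HH d v then 1 else 0)) ^ 2 ≤ X ^ 2 - X := by
    by_cases h : HH d v
    · obtain ⟨l, hl⟩ := h
      have h : HH d v := ⟨l, hl⟩
      have : 1 ≤ X := by
        have := Finset.single_le_sum (f := fun l => if TT d (v l) then (1 : ℝ) else 0)
          (fun j _ => by split_ifs <;> norm_num) (Finset.mem_univ l)
        simp only [hl, if_true] at this
        exact this
      rw [if_pos h]
      nlinarith
    · have : X = 0 := by
        refine Finset.sum_eq_zero fun l _ => ?_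
        rw [if_neg]
        exact fun hl => h ⟨l, hl⟩
      simp [h, this]
  have hZ0 : 0 ≤ Z := Finset.sum_nonneg fun l _ => by split_ifs <;> norm_num
  have hZc : Z ≤ c := by
    have : Z ≤ ∑ _l : Fin c, (1 : ℝ) := Finset.sum_le_sum fun l _ => by split_ifs <;> norm_num
    simpa using this
  have e4 : ((2 * q + 1) * Z) ^ 2 ≤ (2 * q + 1) ^ 2 * c * Z := by
    rw [mul_pow, mul_assoc, sq Z]
    gcongr
  rw [e1, e2]
  set A := (c : ℝ) / q
  set B := X - (if HH d v then 1 else 0)
  set C := (2 * q + 1) * Z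
  nlinarith [sq_nonneg (A + B), sq_nonneg (A - C), sq_nonneg (B + C)]

theorem av_TT (d : F) :
    av (fun a : EE F => if TT d a then (1 : ℝ) else 0) ≤ 1 / (Fintype.card F : ℝ) := by
  have hq := two_le_q (F := F)
  unfold av
  rw [card_EE, div_le_div_iff₀ (by positivity) (by positivity)]
  have := TT_count d
  have h2 : (∑ v : EE F, (if TT d v then (1 : ℝ) else 0)) * (Fintype.card F : ℝ) ≤
    (Fintype.card F : ℝ) ^ 3 * (Fintype.card F : ℝ) := by gcongr
  refine h2.trans (le_of_eq ?_)
  ring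

theorem av_pair (d : F) {c : ℕ} (l l' : Fin c) (h : l' ≠ l) :
    av (fun v : Fin c → EE F =>
      (if TT d (v l) then (1 : ℝ) else 0) * (if TT d (v l') then (1 : ℝ) else 0)) ≤
      (1 / (Fintype.card F : ℝ)) ^ 2 := by
  let φ : (Fin c → EE F) →+ (EE F × EE F) :=
    AddMonoidHom.mk' (fun v => (v l, v l')) (fun a b => rfl)
  have hφ : Function.Surjective φ := by
    intro p
    refine ⟨fun i => if i = l then p.1 else p.2, ?_⟩
    simp [φ, h]
  have := av_comp_surj φ hφ
    (fun p => (if TT d p.1 then (1 : ℝ) else 0) * (if TT d p.2 then (1 : ℝ) else 0))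
  refine (le_of_eq this).trans ?_
  have h2 : av (fun p : EE F × EE F =>
      (if TT d p.1 then (1 : ℝ) else 0) * (if TT d p.2 then (1 : ℝ) else 0)) =
      av (fun a : EE F => if TT d a then (1 : ℝ) else 0) ^ 2 := by
    unfold av
    rw [Fintype.sum_prod_type]
    simp only
    rw [sq, div_mul_div_comm, Finset.sum_mul_sum, Fintype.card_prod]
    push_cast
    rfl
  rw [h2]
  have h3 : 0 ≤ av (fun a : EE F => if TT d a then (1 : ℝ) else 0) := by
    unfold av
    exact div_nonneg (Finset.sum_nonneg fun l _ => by split_ifs <;> norm_num) (by positivity)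
  gcongr
  exact av_TT d

theorem av_zero {c : ℕ} (l : Fin c) :
    av (fun v : Fin c → EE F => (if v l = 0 then (1 : ℝ) else 0)) =
      1 / (Fintype.card F : ℝ) ^ 4 := by
  let φ : (Fin c → EE F) →+ EE F := AddMonoidHom.mk' (fun v => v l) (fun a b => rfl)
  have hφ : Function.Surjective φ := fun p => ⟨fun _ => p, rfl⟩
  have := av_comp_surj φ hφ (fun p => (if p = 0 then (1 : ℝ) else 0))
  refine this.trans ?_
  unfold av
  rw [card_EE]
  simp

theorem av_ph_sq (d : F) (c : ℕ) :
    av (fun v : Fin c → EE F => ph d v ^ 2) ≤ 33 * (c : ℝ) ^ 2 / (Fintype.card F : ℝ) ^ 2 := by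
  have hq := two_le_q (F := F)
  refine (av_mono (ph_sq_le d)).trans ?_
  rw [av_mul, av_add, av_add, av_const, av_mul, av_sum, av_sum]
  set q := (Fintype.card F : ℝ) with hqdef
  have h1 : ∑ l : Fin c, av (fun v : Fin c → EE F => ∑ l' ∈ univ.erase l,
        (if TT d (v l) then (1 : ℝ) else 0) * (if TT d (v l') then (1 : ℝ) else 0)) ≤
        (c : ℝ) * (c * (1 / q) ^ 2) := by
    refine le_trans (Finset.sum_le_card_nsmul _ _ (c * (1 / q) ^ 2) ?_) (by simp)
    intro l _
    rw [av_sum]
    refine le_trans (Finset.sum_le_card_nsmul _ _ ((1 / q) ^ 2) ?_) ?_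
    · intro l' hl'
      exact av_pair d l l' (Finset.mem_erase.1 hl').1
    · rw [nsmul_eq_mul]
      gcongr
      simp
  have h2 : ∑ l : Fin c, av (fun v : Fin c → EE F => (if v l = 0 then (1 : ℝ) else 0)) =
      c * (1 / q ^ 4) := by
    rw [Finset.sum_congr rfl (fun l _ => av_zero l)]
    simp [hqdef]
  rw [h2]
  have h3 : (2 * q + 1) ^ 2 * c * (c * (1 / q ^ 4)) ≤ 9 * (c : ℝ) ^ 2 / q ^ 2 := by
    have : (2 * q + 1) ^ 2 ≤ (3 * q) ^ 2 := by
      gcongr
      linarith
    calc (2 * q + 1) ^ 2 * c * (c * (1 / q ^ 4)) ≤ (3 * q) ^ 2 * c * (c * (1 / q ^ 4)) := by gcongr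
      _ = 9 * (c : ℝ) ^ 2 / q ^ 2 := by field_simp; ring
  have h4 : (c : ℝ) * (c * (1 / q) ^ 2) = (c : ℝ) ^ 2 / q ^ 2 := by field_simp
  have h5 : ((c : ℝ) / q) ^ 2 = (c : ℝ) ^ 2 / q ^ 2 := by field_simp
  rw [h4] at h1
  rw [h5]
  have : 33 * (c : ℝ) ^ 2 / q ^ 2 = 3 * ((c : ℝ) ^ 2 / q ^ 2 + (c : ℝ) ^ 2 / q ^ 2 +
    9 * (c : ℝ) ^ 2 / q ^ 2) := by ring
  rw [this]
  gcongr

theorem ph_zero_sq (d : F) (c : ℕ) (hc : 1 ≤ c) :
    ph d (0 : Fin c → EE F) ^ 2 ≤ 9 * (c : ℝ) ^ 2 * (Fintype.card F : ℝ) ^ 2 := by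
  have hq := two_le_q (F := F)
  set q := (Fintype.card F : ℝ) with hqdef
  have hc' : (1 : ℝ) ≤ c := by exact_mod_cast hc
  have hH : HH d (0 : Fin c → EE F) := ⟨⟨0, hc⟩, TT_zero d⟩
  have e : ph d (0 : Fin c → EE F) = 1 + c * (1 / q + 2 * q) := by
    unfold ph YY Y1
    simp [hH, TT_zero, hqdef]
    ring
  have h1 : 1 / q ≤ 1 := by
    rw [div_le_one (by positivity)]
    linarith
  have h0 : 0 ≤ 1 / q := by positivity
  have h2 : 1 + c * (1 / q + 2 * q) ≤ 3 * c * q := by nlinarith
  rw [e]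
  calc (1 + c * (1 / q + 2 * q)) ^ 2 ≤ (3 * c * q) ^ 2 := by gcongr
    _ = _ := by ring

theorem av_sigma (d : F) (c n : ℕ) (hc : 1 ≤ c) (hn : (Fintype.card F : ℝ) ^ 4 ≤ n) :
    av (fun x : Fin n → Fin c → EE F => ∑ i, ∑ j, ph d (x i - x j) ^ 2) ≤
      42 * (c : ℝ) ^ 2 * (n : ℝ) ^ 2 / (Fintype.card F : ℝ) ^ 2 := by
  have hq := two_le_q (F := F)
  set q := (Fintype.card F : ℝ) with hqdef
  rw [av_sum]
  have h1 : ∀ i : Fin n, av (fun x : Fin n → Fin c → EE F => ∑ j, ph d (x i - x j) ^ 2) ≤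
      9 * (c : ℝ) ^ 2 * q ^ 2 + n * (33 * (c : ℝ) ^ 2 / q ^ 2) := by
    intro i
    rw [av_sum, ← Finset.add_sum_erase _ _ (Finset.mem_univ i)]
    refine add_le_add ?_ ?_
    · simp only [sub_self]
      rw [av_const]
      exact ph_zero_sq d c hc
    · refine le_trans (Finset.sum_le_card_nsmul _ _ (33 * (c : ℝ) ^ 2 / q ^ 2) ?_) ?_
      · intro j hj
        have hji := (Finset.mem_erase.1 hj).1
        let φ : (Fin n → Fin c → EE F) →+ (Fin c → EE F) :=
          AddMonoidHom.mk' (fun x => x i - x j) (fun a b => by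
            simp only [Pi.add_apply]
            abel)
        have hφ : Function.Surjective φ := by
          intro p
          refine ⟨fun a => if a = i then p else 0, ?_⟩
          simp [φ, hji]
        have := av_comp_surj φ hφ (fun v => ph d v ^ 2)
        exact (le_of_eq this).trans (av_ph_sq d c)
      · rw [nsmul_eq_mul]
        gcongr
        simp
  refine le_trans (Finset.sum_le_card_nsmul _ _ _ (fun i _ => h1 i)) ?_
  simp only [card_univ, Fintype.card_fin, nsmul_eq_mul]
  have h2 : 9 * (c : ℝ) ^ 2 * q ^ 2 ≤ n * (9 * (c : ℝ) ^ 2 / q ^ 2) := by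
    calc 9 * (c : ℝ) ^ 2 * q ^ 2 = q ^ 4 * (9 * (c : ℝ) ^ 2 / q ^ 2) := by field_simp
      _ ≤ _ := by gcongr
  calc (n : ℝ) * (9 * (c : ℝ) ^ 2 * q ^ 2 + n * (33 * (c : ℝ) ^ 2 / q ^ 2)) ≤
      n * (n * (9 * (c : ℝ) ^ 2 / q ^ 2) + n * (33 * (c : ℝ) ^ 2 / q ^ 2)) := by gcongr
    _ = _ := by ring

theorem av_indep (d : F) (hq : (16 : ℝ) ≤ Fintype.card F) (c n k : ℕ)
    (hk : k = 48 * Fintype.card F)
    (ι : Fin k → Fin n) (hι : Function.Injective ι) :
    av (fun x : Fin n → Fin c → EE F =>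
      if (∀ a b, a ≠ b → ¬ HH d (x (ι a) - x (ι b))) then (1 : ℝ) else 0) ≤
      ((1 / 2) ^ k) ^ c := by
  let φ : (Fin n → Fin c → EE F) →+ (Fin c → Fin k → EE F) :=
    AddMonoidHom.mk' (fun x l a => x (ι a) l) (fun a b => rfl)
  have hφ : Function.Surjective φ := by
    intro y
    refine ⟨Function.extend ι (fun a l => y l a) 0, ?_⟩
    funext l a
    simp [φ, hι.extend_apply]
  have h1 := av_comp_surj φ hφ (fun y => ∏ l, if Ind d univ (y l) then (1 : ℝ) else 0)
  have h2 : ∀ x : Fin n → Fin c → EE F,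
      (if (∀ a b, a ≠ b → ¬ HH d (x (ι a) - x (ι b))) then (1 : ℝ) else 0) ≤
      ∏ l, if Ind d univ (φ x l) then (1 : ℝ) else 0 := by
    intro x
    by_cases h : (∀ a b, a ≠ b → ¬ HH d (x (ι a) - x (ι b)))
    · rw [if_pos h]
      apply le_of_eq
      symm
      refine Finset.prod_eq_one fun l _ => ?_
      rw [if_pos]
      refine ⟨fun _ => mem_univ _, fun a b hab hT => h a b hab ⟨l, hT⟩⟩
    · rw [if_neg h]
      exact Finset.prod_nonneg fun l _ => by split_ifs <;> norm_num
  refine (av_mono h2).trans ((le_of_eq h1).trans ?_)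
  have h3 : av (fun y : Fin c → Fin k → EE F => ∏ l, if Ind d univ (y l) then (1 : ℝ) else 0) =
      av (fun s : Fin k → EE F => if Ind d univ s then (1 : ℝ) else 0) ^ c := by
    unfold av
    have := Finset.prod_univ_sum (fun _ : Fin c => (univ : Finset (Fin k → EE F)))
      (fun _ s => if Ind d univ s then (1 : ℝ) else 0)
    rw [Fintype.piFinset_univ] at this
    rw [← this, div_pow, Fintype.card_fun (α := Fin c)]
    simp
  rw [h3]
  have h4 : 0 ≤ av (fun s : Fin k → EE F => if Ind d univ s then (1 : ℝ) else 0) := by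
    unfold av
    exact div_nonneg (Finset.sum_nonneg fun l _ => by split_ifs <;> norm_num) (by positivity)
  gcongr
  subst hk
  exact av_ind_le d hq

theorem exists_labels (d : F) (hq : (16 : ℝ) ≤ Fintype.card F) (c n : ℕ) (hc : 1 ≤ c)
    (hn : (Fintype.card F : ℝ) ^ 4 ≤ n) (hn2 : 2 * (n : ℝ) ≤ 2 ^ c)
    (hqc : 8064 * (c : ℝ) ^ 2 ≤ Fintype.card F) :
    ∃ x : Fin n → Fin c → EE F,
      ∑ i, ∑ j, ph d (x i - x j) ^ 2 < (n : ℝ) ^ 2 / (2 * (48 * Fintype.card F)) ∧
      ∀ ι : Fin (48 * Fintype.card F) → Fin n, Function.Injective ι →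
        ∃ a b, a ≠ b ∧ HH d (x (ι a) - x (ι b)) := by
  classical
  set k := 48 * Fintype.card F with hk
  set q := (Fintype.card F : ℝ) with hqdef
  have hq0 : 0 < q := by linarith
  have hn0 : (0 : ℝ) < n := lt_of_lt_of_le (by positivity) hn
  set T : ℝ := (n : ℝ) ^ 2 / (2 * (48 * q)) with hT
  have hT0 : 0 < T := by positivity
  let I : (Fin n → Fin c → EE F) → ℝ := fun x =>
    ∑ ι ∈ univ.filter (fun ι : Fin k → Fin n => Function.Injective ι),
      if (∀ a b, a ≠ b → ¬ HH d (x (ι a) - x (ι b))) then (1 : ℝ) else 0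
  obtain ⟨x, hx⟩ := exists_le_av (fun x : Fin n → Fin c → EE F =>
    (1 / T) * (∑ i, ∑ j, ph d (x i - x j) ^ 2) + I x)
  rw [av_add, av_mul] at hx
  have h1 : (1 / T) * av (fun x : Fin n → Fin c → EE F => ∑ i, ∑ j, ph d (x i - x j) ^ 2) ≤
      1 / 2 := by
    have := av_sigma d c n hc hn
    rw [← hqdef] at this
    calc (1 / T) * av (fun x : Fin n → Fin c → EE F => ∑ i, ∑ j, ph d (x i - x j) ^ 2) ≤
        (1 / T) * (42 * (c : ℝ) ^ 2 * (n : ℝ) ^ 2 / q ^ 2) := by gcongr
      _ = (8064 * (c : ℝ) ^ 2) / q / 2 := by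
          rw [hT]; field_simp; ring
      _ ≤ q / q / 2 := by gcongr
      _ = 1 / 2 := by field_simp
  have hk1 : 2 ≤ k := by
    have : 16 ≤ Fintype.card F := by
      rw [hqdef] at hq
      exact_mod_cast hq
    omega
  have h2 : av I ≤ 1 / 4 := by
    simp only [I]
    rw [av_sum]
    refine le_trans (Finset.sum_le_card_nsmul _ _ (((1 / 2) ^ k) ^ c) ?_) ?_
    · intro ι hι
      exact av_indep d hq c n k hk ι (Finset.mem_filter.1 hι).2
    · rw [nsmul_eq_mul]
      have hcard : ((univ.filter (fun ι : Fin k → Fin n => Function.Injective ι)).card : ℝ) ≤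
          (n : ℝ) ^ k := by
        have := Finset.card_le_univ (univ.filter (fun ι : Fin k → Fin n => Function.Injective ι))
        rw [Fintype.card_fun, Fintype.card_fin, Fintype.card_fin] at this
        exact_mod_cast this
      calc _ ≤ (n : ℝ) ^ k * ((1 / 2) ^ k) ^ c := by gcongr
        _ = ((n : ℝ) / 2 ^ c) ^ k := by
            rw [pow_right_comm, ← mul_pow]
            congr 1
            rw [one_div, inv_pow, div_eq_mul_inv]
        _ ≤ (1 / 2) ^ k := by
            refine pow_le_pow_left₀ (by positivity) ?_ _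
            rw [div_le_div_iff₀ (by positivity) (by positivity)]
            linarith
        _ ≤ (1 / 2) ^ 2 := pow_le_pow_of_le_one (by norm_num) (by norm_num) hk1
        _ = 1 / 4 := by norm_num
  have hI0 : 0 ≤ I x := Finset.sum_nonneg fun l _ => by split_ifs <;> norm_num
  have hS0 : 0 ≤ (1 / T) * (∑ i, ∑ j, ph d (x i - x j) ^ 2) := by positivity
  refine ⟨x, ?_, ?_⟩
  · have : (1 / T) * (∑ i, ∑ j, ph d (x i - x j) ^ 2) < 1 := by linarith
    rw [one_div, inv_mul_lt_iff₀ hT0, mul_one] at this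
    exact this
  · intro ι hι
    by_contra hcon
    push Not at hcon
    have : (1 : ℝ) ≤ I x := by
      have := Finset.single_le_sum (s := univ.filter (fun ι : Fin k → Fin n => Function.Injective ι))
        (f := fun ι => if (∀ a b, a ≠ b → ¬ HH d (x (ι a) - x (ι b))) then (1 : ℝ) else 0)
        (fun j _ => by split_ifs <;> norm_num) (a := ι) (by simp [hι])
      rw [if_pos hcon] at this
      exact this
    linarith

theorem YY_psd {d : F} (hd : ¬ IsSquare d) {c n : ℕ} (x : Fin n → Fin c → EE F) (u : Fin n → ℝ) :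
    0 ≤ ∑ i, ∑ j, u i * u j * YY d (x i - x j) := by
  have : ∑ i, ∑ j, u i * u j * YY d (x i - x j) =
      ∑ l : Fin c, ∑ i, ∑ j, u i * u j * Y1 d (x i l - x j l) := by
    unfold YY
    rw [Finset.sum_comm (s := (univ : Finset (Fin c)))]
    refine Finset.sum_congr rfl fun i _ => ?_
    rw [Finset.sum_comm (s := (univ : Finset (Fin c)))]
    refine Finset.sum_congr rfl fun j _ => ?_
    rw [Finset.mul_sum]
    rfl
  rw [this]
  exact Finset.sum_nonneg fun l _ => Y1_psd hd (fun i => x i l) u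

theorem HH_symm (d : F) {c : ℕ} {x y : Fin c → EE F} (h : HH d (x - y)) : HH d (y - x) := by
  obtain ⟨l, hl⟩ := h
  exact ⟨l, TT_symm d hl⟩

theorem HH_refl (d : F) {c : ℕ} (hc : 1 ≤ c) (x : Fin c → EE F) : HH d (x - x) := by
  rw [sub_self]
  exact ⟨⟨0, hc⟩, TT_zero d⟩

/-- the key object: a reflexive symmetric relation with small independence number whose
  positive square energy is small -/
theorem exists_key : ∃ (k s : ℕ) (H : Fin (k * s) → Fin (k * s) → Prop)
    (Y : Fin (k * s) → Fin (k * s) → ℝ), 1 ≤ k ∧ 1 ≤ s ∧ (∀ i, H i i) ∧ (∀ i j, H i j → H j i) ∧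
    (∀ u : Fin (k * s) → ℝ, 0 ≤ ∑ i, ∑ j, u i * u j * Y i j) ∧
    (∀ ι : Fin k → Fin (k * s), Function.Injective ι → ∃ a b, a ≠ b ∧ H (ι a) (ι b)) ∧
    ∑ i, ∑ j, ((@ite ℝ (H i j) (Classical.propDecidable _) 1 0) + Y i j) ^ 2 <
      (k : ℝ) * (s : ℝ) ^ 2 / 2 := by
  obtain ⟨p, hp, hp1, hp2⟩ := Nat.exists_prime_lt_and_le_two_mul (2 ^ 31) (by norm_num)
  have : Fact p.Prime := ⟨hp⟩
  have hchar : ringChar (ZMod p) ≠ 2 := by
    rw [ZMod.ringChar_zmod_n]
    omega
  obtain ⟨d, hd⟩ := FiniteField.exists_nonsquare hchar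
  have hcard : Fintype.card (ZMod p) = p := ZMod.card p
  have hp1' : (2 : ℝ) ^ 31 ≤ p := by exact_mod_cast hp1.le
  have hp2' : (p : ℝ) ≤ 2 * 2 ^ 31 := by exact_mod_cast hp2
  obtain ⟨x, hx1, hx2⟩ := exists_labels d (by rw [hcard]; linarith) 135
    (48 * Fintype.card (ZMod p) * p ^ 3) (by norm_num)
    (by
      rw [hcard]; push_cast
      have : (0 : ℝ) ≤ (p : ℝ) ^ 4 := by positivity
      nlinarith)
    (by
      rw [hcard]; push_cast
      have : (p : ℝ) ^ 4 ≤ (2 * 2 ^ 31) ^ 4 := by gcongr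
      nlinarith)
    (by rw [hcard]; push_cast; linarith)
  refine ⟨48 * Fintype.card (ZMod p), p ^ 3, fun i j => HH d (x i - x j),
    fun i j => YY d (x i - x j), ?_, ?_, fun i => HH_refl d (by norm_num) _,
    fun i j h => HH_symm d h, YY_psd hd x, hx2, ?_⟩
  · rw [hcard]; omega
  · exact Nat.one_le_pow _ _ hp.pos
  · have e : ∀ i j, ((@ite ℝ (HH d (x i - x j)) (Classical.propDecidable _) 1 0) +
        YY d (x i - x j)) = ph d (x i - x j) := by
      intro i j
      unfold ph
      congr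
    simp only [e]
    refine hx1.trans_le (le_of_eq ?_)
    rw [hcard]
    push_cast
    have : (p : ℝ) ≠ 0 := by positivity
    field_simp

end Pool.Agent.P.MP_416653_co
end

-- part Pool.Agent.P.MP_416653_co.Spectral
section

set_option autoImplicit false

namespace Pool.Agent.P.MP_416653_co

open Matrix Finset

set_option linter.unusedSectionVars false

variable {V : Type} [Fintype V] [DecidableEq V]

theorem frob_eq_trace (M : Matrix V V ℝ) :
    ∑ u, ∑ v, M u v ^ 2 = trace (Mᵀ * M) := by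
  simp only [trace, Matrix.diag, mul_apply, transpose_apply]
  rw [Finset.sum_comm]
  simp [sq]

theorem frob_conj (U M : Matrix V V ℝ) (h : U * Uᵀ = 1) :
    ∑ u, ∑ v, (Uᵀ * M * U) u v ^ 2 = ∑ u, ∑ v, M u v ^ 2 := by
  rw [frob_eq_trace, frob_eq_trace]
  have : (Uᵀ * M * U)ᵀ * (Uᵀ * M * U) = Uᵀ * (Mᵀ * M * U) := by
    simp only [transpose_mul, transpose_transpose]
    calc Uᵀ * (Mᵀ * U) * (Uᵀ * M * U) = Uᵀ * (Mᵀ * (U * Uᵀ) * M * U) := by
          simp only [Matrix.mul_assoc]
      _ = Uᵀ * (Mᵀ * M * U) := by rw [h, Matrix.mul_one]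
  rw [this, trace_mul_comm, Matrix.mul_assoc, h, Matrix.mul_one]

theorem exists_diag (A : Matrix V V ℝ) (hA : A.IsHermitian) :
    ∃ U : Matrix V V ℝ, U * Uᵀ = 1 ∧ Uᵀ * A * U = diagonal hA.eigenvalues := by
  refine ⟨(hA.eigenvectorUnitary : Matrix V V ℝ), ?_, ?_⟩
  · have := Unitary.coe_mul_star_self hA.eigenvectorUnitary
    simpa [star_eq_conjTranspose] using this
  · have := hA.conjStarAlgAut_star_eigenvectorUnitary
    rw [Unitary.conjStarAlgAut_star_apply] at this
    simpa [star_eq_conjTranspose, Function.comp_def] using this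

theorem quad_conj (U M : Matrix V V ℝ) (c : V → ℝ) :
    c ⬝ᵥ (Uᵀ * M * U) *ᵥ c = (U *ᵥ c) ⬝ᵥ M *ᵥ (U *ᵥ c) := by
  rw [← mulVec_mulVec, ← mulVec_mulVec, dotProduct_mulVec, vecMul_transpose]

theorem pos_sq_sum_ge (A : Matrix V V ℝ) (hA : A.IsHermitian) (X : Matrix V V ℝ)
    (hX : ∀ x : V → ℝ, 0 ≤ x ⬝ᵥ X *ᵥ x) :
    ∑ u, ∑ v, A u v ^ 2 - ∑ u, ∑ v, (A u v - X u v) ^ 2 ≤
      ∑ i ∈ univ.filter (fun i => 0 < hA.eigenvalues i), hA.eigenvalues i ^ 2 := by
  obtain ⟨U, hU, hD⟩ := exists_diag A hA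
  have h1 : ∑ u, ∑ v, A u v ^ 2 = ∑ i, hA.eigenvalues i ^ 2 := by
    rw [← frob_conj U A hU, hD]
    refine Finset.sum_congr rfl fun i _ => ?_
    rw [Finset.sum_eq_single i]
    · simp
    · intro j _ hj
      simp [diagonal_apply_ne _ (Ne.symm hj)]
    · simp
  have hpos : ∀ i, 0 ≤ (Uᵀ * X * U) i i := by
    intro i
    have := hX (U *ᵥ Pi.single i 1)
    rw [← quad_conj] at this
    simpa using this
  have h2 : ∑ i, (hA.eigenvalues i - (Uᵀ * X * U) i i) ^ 2 ≤
      ∑ u, ∑ v, (A u v - X u v) ^ 2 := by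
    have h3 := frob_conj U (A - X) hU
    simp only [Matrix.sub_apply] at h3
    rw [← h3, Matrix.mul_sub, Matrix.sub_mul, hD]
    refine Finset.sum_le_sum fun i _ => ?_
    have := Finset.single_le_sum
      (f := fun v => (diagonal hA.eigenvalues - Uᵀ * X * U) i v ^ 2)
      (fun j _ => sq_nonneg _) (Finset.mem_univ i)
    simpa using this
  have h4 : ∑ i, hA.eigenvalues i ^ 2 - ∑ i, (hA.eigenvalues i - (Uᵀ * X * U) i i) ^ 2 ≤
      ∑ i ∈ univ.filter (fun i => 0 < hA.eigenvalues i), hA.eigenvalues i ^ 2 := by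
    rw [Finset.sum_filter, ← Finset.sum_sub_distrib]
    refine Finset.sum_le_sum fun i _ => ?_
    have := hpos i
    split_ifs with h
    · nlinarith [sq_nonneg (hA.eigenvalues i - (Uᵀ * X * U) i i)]
    · push Not at h
      nlinarith [mul_nonneg this (neg_nonneg.2 h), sq_nonneg ((Uᵀ * X * U) i i)]
  linarith

theorem card_pos_le (A : Matrix V V ℝ) (hA : A.IsHermitian)
    {W : Type} [AddCommGroup W] [Module ℝ W] [FiniteDimensional ℝ W]
    (φ : (V → ℝ) →ₗ[ℝ] W) (h : ∀ x, φ x = 0 → x ⬝ᵥ A *ᵥ x ≤ 0) :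
    (univ.filter (fun i => 0 < hA.eigenvalues i)).card ≤ Module.finrank ℝ W := by
  obtain ⟨U, hU, hD⟩ := exists_diag A hA
  set S := univ.filter (fun i => 0 < hA.eigenvalues i) with hS
  let ext : (S → ℝ) →ₗ[ℝ] (V → ℝ) :=
    { toFun := fun c v => if hv : v ∈ S then c ⟨v, hv⟩ else 0
      map_add' := by
        intro a b; funext v; by_cases hv : v ∈ S <;> simp [hv]
      map_smul' := by
        intro a b; funext v; by_cases hv : v ∈ S <;> simp [hv] }
  let ψ : (S → ℝ) →ₗ[ℝ] W := φ ∘ₗ (Matrix.mulVecLin U) ∘ₗ ext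
  have hinj : Function.Injective ψ := by
    rw [← LinearMap.ker_eq_bot, LinearMap.ker_eq_bot']
    intro c hc
    have h1 := h (U *ᵥ ext c) hc
    rw [← quad_conj, hD] at h1
    have h2 : ext c ⬝ᵥ diagonal hA.eigenvalues *ᵥ ext c =
        ∑ v, hA.eigenvalues v * (ext c v) ^ 2 := by
      simp only [dotProduct, mulVec_diagonal]
      refine Finset.sum_congr rfl fun v _ => by ring
    rw [h2] at h1
    have h3 : ∀ v ∈ (univ : Finset V), 0 ≤ hA.eigenvalues v * (ext c v) ^ 2 := by
      intro v _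
      by_cases hv : v ∈ S
      · have : 0 < hA.eigenvalues v := by simpa [hS] using hv
        positivity
      · simp [ext, hv]
    have h4 := (Finset.sum_eq_zero_iff_of_nonneg h3).1 (le_antisymm h1 (Finset.sum_nonneg h3))
    funext ⟨v, hv⟩
    have h5 := h4 v (Finset.mem_univ v)
    have h6 : 0 < hA.eigenvalues v := by simpa [hS] using hv
    have h7 : ext c v = 0 := by
      rcases mul_eq_zero.1 h5 with h8 | h8
      · exact absurd h8 h6.ne'
      · exact pow_eq_zero_iff (by norm_num) |>.1 h8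
    simpa [ext, hv] using h7
  have := LinearMap.finrank_le_finrank_of_injective hinj
  simpa using this

end Pool.Agent.P.MP_416653_co
end

-- part Pool.Agent.P.MP_416653_co.Join
section

set_option autoImplicit false

namespace Pool.Agent.P.MP_416653_co

open Finset Matrix

set_option linter.unusedSectionVars false

/-- the reflexive non-adjacency relation of the joined graph -/
def rel {n t s : ℕ} (H : Fin n → Fin n → Prop) :
    Fin n ⊕ (Fin t × Fin s) → Fin n ⊕ (Fin t × Fin s) → Prop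
  | Sum.inl i, Sum.inl j => H i j
  | Sum.inr a, Sum.inr b => a.1 = b.1
  | Sum.inl _, Sum.inr _ => False
  | Sum.inr _, Sum.inl _ => False

def yy {n t s : ℕ} (Y : Fin n → Fin n → ℝ) :
    Fin n ⊕ (Fin t × Fin s) → Fin n ⊕ (Fin t × Fin s) → ℝ
  | Sum.inl i, Sum.inl j => Y i j
  | Sum.inr _, Sum.inr _ => 0
  | Sum.inl _, Sum.inr _ => 0
  | Sum.inr _, Sum.inl _ => 0

def jg {n : ℕ} (t s : ℕ) (H : Fin n → Fin n → Prop) (hr : ∀ i, H i i)
    (hs : ∀ i j, H i j → H j i) : SimpleGraph (Fin n ⊕ (Fin t × Fin s)) where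
  Adj u v := ¬ rel H u v
  symm := ⟨by
    intro u v h h'
    apply h
    rcases u with u | u <;> rcases v with v | v
    · exact hs _ _ h'
    · exact h'
    · exact h'
    · exact h'.symm⟩
  loopless := ⟨by
    intro u h
    apply h
    rcases u with u | u
    · exact hr u
    · rfl⟩

theorem two_m {V : Type} [Fintype V] [DecidableEq V] (G : SimpleGraph V) [DecidableRel G.Adj] :
    ∑ u, ∑ v, G.adjMatrix ℝ u v ^ 2 = 2 * (Nat.card G.edgeSet : ℝ) := by
  have h1 := G.sum_degrees_eq_twice_card_edges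
  rw [Nat.card_eq_fintype_card, ← SimpleGraph.edgeFinset_card]
  have h2 : (∑ v, (G.degree v : ℝ)) = 2 * (G.edgeFinset.card : ℝ) := by exact_mod_cast h1
  rw [← h2]
  refine Finset.sum_congr rfl fun u _ => ?_
  rw [← SimpleGraph.card_neighborFinset_eq_degree, SimpleGraph.neighborFinset_eq_filter,
    ← Finset.sum_boole]
  refine Finset.sum_congr rfl fun v _ => ?_
  simp only [SimpleGraph.adjMatrix_apply]
  split_ifs <;> simp

theorem sum_same (t s : ℕ) :
    ∑ a : Fin t × Fin s, ∑ b : Fin t × Fin s, (if a.1 = b.1 then (1 : ℝ) else 0) =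
      t * (s : ℝ) ^ 2 := by
  have : ∀ a : Fin t × Fin s, ∑ b : Fin t × Fin s, (if a.1 = b.1 then (1 : ℝ) else 0) = s := by
    intro a
    rw [Fintype.sum_prod_type_right]
    simp only [Finset.sum_ite_eq, Finset.mem_univ, if_true]
    simp
  simp only [this]
  simp
  ring

section
open Classical
variable {n t s : ℕ} (H : Fin n → Fin n → Prop)

theorem ite_rel_ll (i j : Fin n) :
    (if rel (t := t) (s := s) H (Sum.inl i) (Sum.inl j) then (1 : ℝ) else 0) =
      if H i j then 1 else 0 := rfl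

theorem ite_rel_lr (i : Fin n) (b : Fin t × Fin s) :
    (if rel H (Sum.inl i) (Sum.inr b) then (1 : ℝ) else 0) = 0 := if_neg (fun h => h)

theorem ite_rel_rl (i : Fin n) (b : Fin t × Fin s) :
    (if rel H (Sum.inr b) (Sum.inl i) then (1 : ℝ) else 0) = 0 := if_neg (fun h => h)

theorem ite_rel_rr (a b : Fin t × Fin s) :
    (if rel H (Sum.inr a) (Sum.inr b) then (1 : ℝ) else 0) = if a.1 = b.1 then 1 else 0 := by
  by_cases h : a.1 = b.1
  · rw [if_pos h, if_pos (show rel H (Sum.inr a) (Sum.inr b) from h)]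
  · rw [if_neg h, if_neg (show ¬ rel H (Sum.inr a) (Sum.inr b) from h)]

end

open Classical in
theorem sum_rel_sq {n t s : ℕ} (H : Fin n → Fin n → Prop) (Y : Fin n → Fin n → ℝ) :
    ∑ u : Fin n ⊕ (Fin t × Fin s), ∑ v : Fin n ⊕ (Fin t × Fin s),
      ((if rel H u v then (1 : ℝ) else 0) + yy Y u v) ^ 2 =
    ∑ i, ∑ j, ((if H i j then (1 : ℝ) else 0) + Y i j) ^ 2 + t * (s : ℝ) ^ 2 := by
  rw [← sum_same t s]
  simp only [Fintype.sum_sum_type, Finset.sum_add_distrib, ite_rel_ll, ite_rel_lr, ite_rel_rl,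
    ite_rel_rr, yy, add_zero]
  simp only [ne_eq, OfNat.ofNat_ne_zero, not_false_eq_true, zero_pow, sum_const_zero, add_zero,
    zero_add]
  congr 1
  refine Finset.sum_congr rfl fun a _ => Finset.sum_congr rfl fun b _ => ?_
  by_cases h : a.1 = b.1 <;> simp [h]

open Classical in
theorem sum_rel {n t s : ℕ} (H : Fin n → Fin n → Prop) :
    ∑ u : Fin n ⊕ (Fin t × Fin s), ∑ v : Fin n ⊕ (Fin t × Fin s),
      (if rel H u v then (1 : ℝ) else 0) ≤ (n : ℝ) ^ 2 + t * (s : ℝ) ^ 2 := by
  rw [← sum_same t s]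
  simp only [Fintype.sum_sum_type, Finset.sum_add_distrib, ite_rel_ll, ite_rel_lr, ite_rel_rl,
    ite_rel_rr]
  simp only [sum_const_zero, add_zero, zero_add]
  refine add_le_add ?_ (le_of_eq ?_)
  · have e3 : ∑ i : Fin n, ∑ j : Fin n, (if H i j then (1 : ℝ) else 0) ≤
        ∑ _i : Fin n, ∑ _j : Fin n, (1 : ℝ) :=
      Finset.sum_le_sum fun i _ => Finset.sum_le_sum fun j _ => by split_ifs <;> norm_num
    simp only [sum_const, card_univ, Fintype.card_fin, nsmul_eq_mul, mul_one] at e3
    rw [sq]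
    exact e3
  · rfl

theorem final_arith (k s t n σ M w : ℝ) (hk : 1 ≤ k) (htk : k + 1 ≤ t) (hnn : n = k * s)
    (hσ0 : 0 ≤ σ) (hσ : σ < k * s ^ 2 / 2) (hw1 : t ≤ w) (hw2 : w + 1 ≤ t + k)
    (hM : 2 * n * t * s + t ^ 2 * s ^ 2 - t * s ^ 2 ≤ M) (h3 : M / w ≤ σ + t * s ^ 2) : False := by
  have hw0 : 0 < w := by linarith
  have ht0 : 0 < t := by linarith
  rw [div_le_iff₀ hw0] at h3
  have h4 : (σ + t * s ^ 2) * w ≤ (σ + t * s ^ 2) * (t + k - 1) := by
    gcongr
    linarith
  have h5 : σ * (t + k - 1) ≤ σ * (2 * t) := by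
    gcongr
    linarith
  have h6 : σ * (2 * t) < k * s ^ 2 / 2 * (2 * t) := by gcongr
  rw [hnn] at hM
  nlinarith

theorem main_aux (k s n t : ℕ) (hn : n = k * s) (ht : t = n + k + 1)
    (H : Fin n → Fin n → Prop)
    (Y : Fin n → Fin n → ℝ) (hk : 1 ≤ k) (hs : 1 ≤ s) (hr : ∀ i, H i i)
    (hsy : ∀ i j, H i j → H j i)
    (hY : ∀ u : Fin n → ℝ, 0 ≤ ∑ i, ∑ j, u i * u j * Y i j)
    (hind : ∀ ι : Fin k → Fin n, Function.Injective ι → ∃ a b, a ≠ b ∧ H (ι a) (ι b))
    (hσ : ∑ i, ∑ j, ((@ite ℝ (H i j) (Classical.propDecidable _) 1 0) + Y i j) ^ 2 <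
      (k : ℝ) * (s : ℝ) ^ 2 / 2) :
    ¬ (∀ (V : Type) [Fintype V] [DecidableEq V] (G : SimpleGraph V) [DecidableRel G.Adj]
      (hA : (G.adjMatrix ℝ).IsHermitian) (ω : ℕ),
      (∃ s : Finset V, G.IsNClique ω s) →
      (∀ (k : ℕ) (s : Finset V), G.IsNClique k s → k ≤ ω) →
      ∀ S : Finset V, S.card ≤ ω → (∀ i ∈ S, 0 < hA.eigenvalues i) →
        ∑ i ∈ S, hA.eigenvalues i ^ 2 ≤ 2 * (1 - 1 / (ω : ℝ)) * (Nat.card G.edgeSet : ℝ)) := by
  classical
  intro hall
  let V := Fin n ⊕ (Fin t × Fin s)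
  let G : SimpleGraph V := jg t s H hr hsy
  have hA : (G.adjMatrix ℝ).IsHermitian := by
    simp [Matrix.IsHermitian]
  have hAdj : ∀ u v, G.adjMatrix ℝ u v = 1 - (if rel H u v then 1 else 0) := by
    intro u v
    simp only [SimpleGraph.adjMatrix_apply]
    have : G.Adj u v ↔ ¬ rel H u v := Iff.rfl
    by_cases h : rel H u v <;> simp [this, h]
  -- clique number bounds
  have hω1 : t ≤ G.cliqueNum := by
    let K : Finset V := univ.image (fun a : Fin t => (Sum.inr (a, ⟨0, hs⟩) : V))
    have hK : G.IsClique K := by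
      intro u hu v hv huv
      obtain ⟨a, _, rfl⟩ := Finset.mem_image.1 (Finset.mem_coe.1 hu)
      obtain ⟨b, _, rfl⟩ := Finset.mem_image.1 (Finset.mem_coe.1 hv)
      intro h
      apply huv
      have : a = b := h
      rw [this]
    have hc : K.card = t := by
      rw [Finset.card_image_of_injective]
      · simp
      · intro a b h
        exact congrArg Prod.fst (Sum.inr_injective h)
    rw [← hc]
    exact hK.card_le_cliqueNum
  have hω2 : G.cliqueNum + 1 ≤ t + k := by
    obtain ⟨K, hK⟩ := G.exists_isNClique_cliqueNum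
    rw [← hK.card_eq, ← Finset.card_toLeft_add_card_toRight]
    have h1 : K.toLeft.card < k := by
      by_contra hcon
      push Not at hcon
      obtain ⟨a, b, hab, hH⟩ := hind (K.toLeft.orderEmbOfCardLe hcon)
        (K.toLeft.orderEmbOfCardLe hcon).injective
      have ha := Finset.mem_toLeft.1 (K.toLeft.orderEmbOfCardLe_mem hcon a)
      have hb := Finset.mem_toLeft.1 (K.toLeft.orderEmbOfCardLe_mem hcon b)
      have := hK.isClique (Finset.mem_coe.2 ha) (Finset.mem_coe.2 hb) (by
        intro h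
        apply hab
        exact (K.toLeft.orderEmbOfCardLe hcon).injective (Sum.inl_injective h))
      exact this hH
    have h2 : K.toRight.card ≤ (univ : Finset (Fin t)).card := by
      refine Finset.card_le_card_of_injOn (fun a => a.1) (fun _ _ => Finset.mem_coe.2 (mem_univ _)) ?_
      intro a ha b hb hab
      by_contra hne
      have := hK.isClique (Finset.mem_coe.2 (Finset.mem_toRight.1 (Finset.mem_coe.1 ha)))
        (Finset.mem_coe.2 (Finset.mem_toRight.1 (Finset.mem_coe.1 hb))) (by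
          intro h
          exact hne (Sum.inr_injective h))
      exact this hab
    simp only [card_univ, Fintype.card_fin] at h2
    omega
  -- number of positive eigenvalues
  let φ : (V → ℝ) →ₗ[ℝ] ((Fin n → ℝ) × ℝ) :=
    { toFun := fun x => (fun i => x (Sum.inl i), ∑ u, x u)
      map_add' := by
        intro a b
        ext <;> simp [Finset.sum_add_distrib]
      map_smul' := by
        intro a b
        ext <;> simp [Finset.mul_sum] }
  have hcard := card_pos_le (G.adjMatrix ℝ) hA φ (by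
    intro x hx
    have hx1 : ∀ i, x (Sum.inl i) = 0 := fun i => congrFun (congrArg Prod.fst hx) i
    have hx2 : ∑ u, x u = 0 := congrArg Prod.snd hx
    have e1 : x ⬝ᵥ G.adjMatrix ℝ *ᵥ x =
        (∑ u, x u) * (∑ u, x u) - ∑ u, ∑ v, x u * x v * (if rel H u v then 1 else 0) := by
      simp only [dotProduct, mulVec, hAdj]
      rw [Finset.sum_mul_sum, ← Finset.sum_sub_distrib]
      refine Finset.sum_congr rfl fun u _ => ?_
      rw [Finset.mul_sum, ← Finset.sum_sub_distrib]
      refine Finset.sum_congr rfl fun v _ => ?_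
      ring
    have e2 : ∑ u, ∑ v, x u * x v * (if rel H u v then (1 : ℝ) else 0) =
        ∑ a : Fin t × Fin s, ∑ b : Fin t × Fin s,
          x (Sum.inr a) * x (Sum.inr b) * (if a.1 = b.1 then 1 else 0) := by
      simp only [V, Fintype.sum_sum_type, hx1, zero_mul, mul_zero, Finset.sum_const_zero, zero_add]
      refine Finset.sum_congr rfl fun a _ => Finset.sum_congr rfl fun b _ => ?_
      congr
    have e3 := sq_sum_le_fib (univ : Finset (Fin t × Fin s)) (fun a => a.1)
      (fun a => x (Sum.inr a))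
    have e4 : (0 : ℝ) < Fintype.card (Fin t) := by
      simp [ht]
      positivity
    have e5 : 0 ≤ ∑ a : Fin t × Fin s, ∑ b : Fin t × Fin s,
          x (Sum.inr a) * x (Sum.inr b) * (if a.1 = b.1 then 1 else 0) :=
      (mul_nonneg_iff_of_pos_left e4).1 ((sq_nonneg _).trans e3)
    rw [e1, e2, hx2]
    linarith)
  have hfr : Module.finrank ℝ ((Fin n → ℝ) × ℝ) = n + 1 := by simp
  rw [hfr] at hcard
  have hmain := hall V G hA G.cliqueNum G.exists_isNClique_cliqueNum
    (fun k s h => h.card_eq ▸ h.isClique.card_le_cliqueNum)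
    (univ.filter (fun i => 0 < hA.eigenvalues i)) (by omega)
    (fun i hi => (Finset.mem_filter.1 hi).2)
  -- lower bound on the positive square energy
  let X : Matrix V V ℝ := fun u v => 1 + yy Y u v
  have hX : ∀ x : V → ℝ, 0 ≤ x ⬝ᵥ X *ᵥ x := by
    intro x
    have e1 : x ⬝ᵥ X *ᵥ x = (∑ u, x u) * (∑ u, x u) + ∑ u, ∑ v, x u * x v * yy Y u v := by
      simp only [dotProduct, mulVec, X]
      rw [Finset.sum_mul_sum, ← Finset.sum_add_distrib]
      refine Finset.sum_congr rfl fun u _ => ?_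
      rw [Finset.mul_sum, ← Finset.sum_add_distrib]
      refine Finset.sum_congr rfl fun v _ => ?_
      ring
    have e2 : ∑ u, ∑ v, x u * x v * yy Y u v =
        ∑ i, ∑ j, x (Sum.inl i) * x (Sum.inl j) * Y i j := by
      simp [V, Fintype.sum_sum_type, yy]
    rw [e1, e2]
    exact add_nonneg (mul_self_nonneg _) (hY _)
  have hlow := pos_sq_sum_ge (G.adjMatrix ℝ) hA X hX
  set σ := ∑ i, ∑ j, ((@ite ℝ (H i j) (Classical.propDecidable _) 1 0) + Y i j) ^ 2 with hσdef
  have hdiff : ∑ u, ∑ v, (G.adjMatrix ℝ u v - X u v) ^ 2 = σ + t * (s : ℝ) ^ 2 := by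
    have e : ∀ u v, (G.adjMatrix ℝ u v - X u v) ^ 2 =
        ((if rel H u v then (1 : ℝ) else 0) + yy Y u v) ^ 2 := by
      intro u v
      rw [hAdj]
      simp only [X]
      ring
    simp only [e]
    exact sum_rel_sq H Y
  have hM : 2 * (n : ℝ) * t * s + (t : ℝ) ^ 2 * s ^ 2 - t * (s : ℝ) ^ 2 ≤
      ∑ u, ∑ v, G.adjMatrix ℝ u v ^ 2 := by
    have e : ∀ u v, G.adjMatrix ℝ u v ^ 2 = 1 - (if rel H u v then (1 : ℝ) else 0) := by
      intro u v
      rw [hAdj]
      split_ifs <;> simp
    simp only [e, Finset.sum_sub_distrib]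
    have e2 := sum_rel (t := t) (s := s) H
    have e4 : ∑ _u : V, ∑ _v : V, (1 : ℝ) = ((n : ℝ) + t * s) ^ 2 := by
      simp [V]
      ring
    rw [e4]
    have e5 : ((n : ℝ) + t * s) ^ 2 = (n : ℝ) ^ 2 + 2 * (n : ℝ) * t * s + (t : ℝ) ^ 2 * s ^ 2 := by
      ring
    rw [e5]
    exact le_trans (le_of_eq (by ring)) (sub_le_sub_left e2 _)
  rw [hdiff] at hlow
  have h2m := two_m G
  set M := ∑ u, ∑ v, G.adjMatrix ℝ u v ^ 2 with hMdef
  set w := (G.cliqueNum : ℝ) with hw
  have hw1 : (t : ℝ) ≤ w := by rw [hw]; exact_mod_cast hω1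
  have hw2 : w + 1 ≤ t + k := by rw [hw]; exact_mod_cast hω2
  have htk : (k : ℝ) + 1 ≤ t := by
    have : k + 1 ≤ t := by omega
    exact_mod_cast this
  have hk' : (1 : ℝ) ≤ k := by exact_mod_cast hk
  have hs' : (1 : ℝ) ≤ s := by exact_mod_cast hs
  have hw0 : 0 < w := by linarith
  have hnn : (n : ℝ) = k * s := by rw [hn]; push_cast; ring
  have hσ0 : 0 ≤ σ := by rw [hσdef]; positivity
  have h3 : M / w ≤ σ + t * (s : ℝ) ^ 2 := by
    have : 2 * (1 - 1 / w) * (Nat.card G.edgeSet : ℝ) = M - M / w := by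
      rw [h2m]; ring
    linarith
  exact final_arith k s t n σ M w hk' htk hnn hσ0 hσ hw1 hw2 hM h3

theorem main_neg :
    ¬ (∀ (V : Type) [Fintype V] [DecidableEq V] (G : SimpleGraph V) [DecidableRel G.Adj]
      (hA : (G.adjMatrix ℝ).IsHermitian) (ω : ℕ),
      (∃ s : Finset V, G.IsNClique ω s) →
      (∀ (k : ℕ) (s : Finset V), G.IsNClique k s → k ≤ ω) →
      ∀ S : Finset V, S.card ≤ ω → (∀ i ∈ S, 0 < hA.eigenvalues i) →
        ∑ i ∈ S, hA.eigenvalues i ^ 2 ≤ 2 * (1 - 1 / (ω : ℝ)) * (Nat.card G.edgeSet : ℝ)) := by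
  obtain ⟨k, s, H, Y, hk, hs, hr, hsy, hY, hind, hσ⟩ := exists_key
  exact main_aux k s (k * s) (k * s + k + 1) rfl rfl H Y hk hs hr hsy hY hind hσ

end Pool.Agent.P.MP_416653_co
end
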